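import Pool.Agent.TH692.GR.G9
import Pool.Agent.TH279.GR.G8b
import Pool.Agent.TH150.GR.G1
import Pool.Agent.TH241.GR.G0b
import Pool.Agent.TH73.GR.G5

/-!
# Division, descent and growth (job 4498, helper692)
-/

set_option autoImplicit false

open MvPolynomial Module Filter Topology

namespace Pool.Agent.TH692.GR

open Pool.Agent.TH279.GR

variable {a b : ℕ}

lemma mem_bh {u v : ℕ} {f : Co a b} : f ∈ bh a b u v ↔ IsWeightedHomogeneous (wt a b) f (u, v) :=
  mem_weightedHomogeneousSubmodule ℂ (wt a b) (u, v) f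

/-- components of a product with a form -/
lemma comp_mul {x f : Co a b} {c e : ℕ} (hx : x ∈ bh a b c e) (u v : ℕ) :
    weightedHomogeneousComponent (wt a b) (u + c, v + e) (x * f) =
      x * weightedHomogeneousComponent (wt a b) (u, v) f := by
  classical
  have hfin : (Function.support fun m => weightedHomogeneousComponent (wt a b) m f).Finite :=
    weightedHomogeneousComponent_finsupp f
  obtain ⟨s, hs⟩ : ∃ s : Finset (ℕ × ℕ), ∀ m, m ∈ s ↔
      weightedHomogeneousComponent (wt a b) m f ≠ 0 :=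
    ⟨hfin.toFinset, fun m => by rw [Set.Finite.mem_toFinset]; exact Iff.rfl⟩
  have hf : f = ∑ m ∈ s, weightedHomogeneousComponent (wt a b) m f := by
    conv_lhs => rw [← sum_weightedHomogeneousComponent (wt a b) f]
    exact finsum_eq_sum_of_support_subset _ fun m hm => (hs m).2 hm
  have hf2 : f = ∑ m ∈ insert (u, v) s, weightedHomogeneousComponent (wt a b) m f := by
    by_cases h : (u, v) ∈ s
    · rw [Finset.insert_eq_of_mem h]
      exact hf
    · rw [Finset.sum_insert h, ← hf]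
      have : weightedHomogeneousComponent (wt a b) (u, v) f = 0 := by
        by_contra h1
        exact h ((hs _).2 h1)
      rw [this, zero_add]
  have h1 : ∀ m ∈ insert (u, v) s, weightedHomogeneousComponent (wt a b) (u + c, v + e)
      (x * weightedHomogeneousComponent (wt a b) m f) =
        if m = (u, v) then x * weightedHomogeneousComponent (wt a b) m f else 0 := by
    intro m _
    have h2 : IsWeightedHomogeneous (wt a b) (x * weightedHomogeneousComponent (wt a b) m f)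
        ((c, e) + m) := (mem_bh.1 hx).mul (weightedHomogeneousComponent_isWeightedHomogeneous m f)
    by_cases h : m = (u, v)
    · rw [if_pos h]
      have h3 : (c, e) + m = (u + c, v + e) := by
        rw [h, Prod.mk_add_mk, Nat.add_comm c u, Nat.add_comm e v]
      rw [h3] at h2
      exact h2.weightedHomogeneousComponent_same
    · rw [if_neg h]
      apply h2.weightedHomogeneousComponent_ne
      intro h3
      apply h
      obtain ⟨m1, m2⟩ := m
      rw [Prod.mk_add_mk, Prod.mk.injEq] at h3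
      rw [Prod.mk.injEq]
      constructor <;> omega
  conv_lhs => rw [hf2, Finset.mul_sum, map_sum, Finset.sum_congr rfl h1]
  rw [Finset.sum_ite_eq' , if_pos (Finset.mem_insert_self _ _)]

lemma im_eq_zero {P : Ideal (Co a b)} (hP : P.IsPrime) {f : Co a b} : im P f = 0 ↔ f ∈ P := by
  haveI := hP
  have e : im P f = algebraMap (Co a b ⧸ P) (KK P) (Ideal.Quotient.mk P f) := rfl
  rw [e]
  constructor
  · intro h
    have h2 : (Ideal.Quotient.mk P f) = 0 :=
      (IsFractionRing.injective (Co a b ⧸ P) (KK P)) (by rw [h, map_zero])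
    exact Ideal.Quotient.eq_zero_iff_mem.1 h2
  · intro h
    rw [Ideal.Quotient.eq_zero_iff_mem.2 h, map_zero]

end Pool.Agent.TH692.GR

namespace Pool.Agent.TH279.GR.G10

open Pool.Agent.TH279.GR Pool.Agent.TH692.GR

variable {a b : ℕ}

theorem Ga.div {P : Ideal (Co a b)} (hP : P.IsPrime) (hPh : BHom P) {x : Co a b} {c e : ℕ}
    (hx : x ∈ bh a b c e) (hxP : x ∉ P) {m n q p : ℕ} {ψ : KK P}
    (h : Ga P (P ⊔ Ideal.span {x}) m n q p ψ) : Ga P ⊤ m n (q + c) (p + e) (ψ / im P x) := by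
  obtain ⟨u, v, huv⟩ := h
  have h1 : Mu P (P ⊔ Ideal.span {x}) m n q p (u + c) (v + e) ψ :=
    G0a.Mu.mono huv (Nat.le_add_right _ _) (Nat.le_add_right _ _)
  haveI := hP
  have hx0 : im P x ≠ 0 := fun h => hxP ((im_eq_zero hP).1 h)
  refine ⟨u, v, fun g hg => ?_⟩
  have hg' : g ∈ bh a b (u + c + q) (v + e + p) := by
    have e1 : u + (q + c) = u + c + q := by ring
    have e2 : v + (p + e) = v + e + p := by ring
    rwa [e1, e2] at hg
  obtain ⟨f, hf, hfe⟩ := h1 g hg'
  unfold pt at hf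
  rw [Submodule.mem_inf, Submodule.restrictScalars_mem, Submodule.mem_sup] at hf
  obtain ⟨hf1, y, hy, z, hz, hyz⟩ := hf
  obtain ⟨f', rfl⟩ := Ideal.mem_span_singleton'.1 hz
  have e1 : u + c + m = u + m + c := by ring
  have e2 : v + e + n = v + n + e := by ring
  rw [e1, e2] at hf1
  set f'' := weightedHomogeneousComponent (wt a b) (u + m, v + n) f' with hf''
  have h2 : f = weightedHomogeneousComponent (wt a b) (u + m + c, v + n + e) y + x * f'' := by
    have h3 : weightedHomogeneousComponent (wt a b) (u + m + c, v + n + e) f = f :=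
      (mem_bh.1 hf1).weightedHomogeneousComponent_same
    rw [← comp_mul hx, ← map_add, mul_comm x f', hyz, h3]
  refine ⟨f'', ?_, ?_⟩
  · unfold pt
    rw [Submodule.mem_inf]
    exact ⟨mem_bh.2 (weightedHomogeneousComponent_isWeightedHomogeneous _ _), trivial⟩
  · have h4 : im P f = im P x * im P f'' := by
      rw [h2, map_add, map_mul, (im_eq_zero hP).2 (hPh y hy _), zero_add]
    rw [h4] at hfe
    rw [div_mul_eq_mul_div, hfe, mul_div_cancel_left₀ _ hx0]

/-- a form of positive degree in `y` is in the ideal generated by the `y_j` -/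
lemma mem_of_y {P : Ideal (Co a b)} (h : ∀ j : Fin (b + 1), (X (Sum.inr j) : Co a b) ∈ P) {u v : ℕ}
    (hv : 1 ≤ v) {f : Co a b} (hf : f ∈ bh a b u v) : f ∈ P := by
  classical
  rw [f.as_sum]
  apply Ideal.sum_mem
  intro d hd
  have h1 := (mem_bh.1 hf) (mem_support_iff.1 hd)
  by_cases h2 : ∃ j : Fin (b + 1), d (Sum.inr j) ≠ 0
  · obtain ⟨j, hj⟩ := h2
    have h3 : monomial d (coeff d f) = X (Sum.inr j) *
        monomial (d - Finsupp.single (Sum.inr j) 1) (coeff d f) := by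
      rw [X, monomial_mul, one_mul,
        add_tsub_cancel_of_le (Finsupp.single_le_iff.2 (Nat.one_le_iff_ne_zero.2 hj))]
    rw [h3]
    exact P.mul_mem_right _ (h j)
  · exfalso
    push Not at h2
    rw [Finsupp.weight_apply, Finsupp.sum_fintype d (fun i c => c • wt a b i)
      (fun i => zero_smul _ _)] at h1
    have h4 := congrArg Prod.snd h1
    rw [Fintype.sum_sum_type] at h4
    simp only [h2, zero_smul, Finset.sum_const_zero, add_zero, wt, Sum.elim_inl] at h4
    rw [Prod.snd_sum] at h4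
    simp at h4
    omega

lemma exists_y {P : Ideal (Co a b)} {α β γ : ℝ} (hP : Surf P α β γ) :
    ∃ j : Fin (b + 1), (X (Sum.inr j) : Co a b) ∉ P := by
  by_contra hcon
  push Not at hcon
  have h0 : ∀ t : ℕ, 1 ≤ t → hf P t t = 0 := by
    intro t ht
    unfold hf
    have : (bh a b t t).map (Ideal.Quotient.mkₐ ℂ P).toLinearMap = ⊥ := by
      rw [Submodule.eq_bot_iff]
      rintro _ ⟨f, hf, rfl⟩
      exact Ideal.Quotient.eq_zero_iff_mem.2 (mem_of_y hcon ht hf)
    rw [this, finrank_bot]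
  have h1 := hP.growth 1 1 le_rfl le_rfl
  have h2 : (fun t : ℕ => 2 * (hf P (1 * t) (1 * t) : ℝ) / (t : ℝ) ^ 2) =ᶠ[atTop]
      fun _ => (0 : ℝ) := by
    filter_upwards [eventually_ge_atTop 1] with t ht
    rw [one_mul, h0 t ht]
    simp
  have h3 := tendsto_nhds_unique (h1.congr' h2) tendsto_const_nhds
  have := hP.pos
  norm_num at h3
  linarith

/-- one step of the descent -/
theorem descent_step {P : Ideal (Co a b)} {α β γ : ℝ} (hP : Surf P α β γ) (hnef : Nef P) :
    ∃ (j : Fin (b + 1)) (C : ℕ), (X (Sum.inr j) : Co a b) ∉ P ∧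
      ∀ (m n p : ℕ), p ≤ m + n → n ≤ m + p → ∀ (V : Submodule ℂ (KK P)) [FiniteDimensional ℂ V],
        (∀ ψ ∈ V, Ga P ⊤ m n 0 p ψ) →
        ∃ V' : Submodule ℂ (KK P), FiniteDimensional ℂ V' ∧ (∀ ψ ∈ V', Ga P ⊤ m n 0 (p + 1) ψ) ∧
          (finrank ℂ V : ℝ) ≤ finrank ℂ V' + C + m * β + ((n : ℝ) - p) * γ := by
  classical
  obtain ⟨j, hj⟩ := exists_y hP
  set y : Co a b := X (Sum.inr j) with hy
  have hyb : y ∈ bh a b 0 1 := G0a.X_inr_mem j
  obtain ⟨l, hc, hl⟩ := G1.chain_exists (hP.hom.sup (BHom.span hyb))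
    (show BHom (⊤ : Ideal (Co a b)) from fun _ _ _ => trivial)
    (le_top : P ⊔ Ideal.span {y} ≤ ⊤)
  have hle : P ≤ P ⊔ Ideal.span {y} := le_sup_left
  have hyN : y ∈ P ⊔ Ideal.span {y} := Ideal.mem_sup_right (Ideal.mem_span_singleton_self y)
  have hlin : ∀ t ∈ l, Rel t.1 → ∃ d : ℕ × ℕ, ∃ c0 : ℤ, Lin t.1 d.1 d.2 c0 := by
    intro t ht hr
    obtain ⟨h1, h2, h3⟩ := hl t ht
    obtain ⟨dA, dB, c0, h⟩ := G5.surf_lin hP h1 h2 hr
      (lt_of_le_of_ne (hle.trans h3) (by
        intro h4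
        exact hj (h4 ▸ h3 hyN)))
    exact ⟨(dA, dB), c0, h⟩
  set dd : Ideal (Co a b) → ℕ × ℕ := fun Q =>
    if h : Rel Q ∧ ∃ d : ℕ × ℕ, ∃ c0 : ℤ, Lin Q d.1 d.2 c0 then h.2.choose else (0, 0) with hdd
  have hd1 : ∀ t ∈ l, Rel t.1 → ∃ c0 : ℤ, Lin t.1 (dd t.1).1 (dd t.1).2 c0 := by
    intro t ht hr
    have h : Rel t.1 ∧ ∃ d : ℕ × ℕ, ∃ c0 : ℤ, Lin t.1 d.1 d.2 c0 := ⟨hr, hlin t ht hr⟩
    simp only [hdd]
    rw [dif_pos h]
    exact h.2.choose_spec
  have hd2 : ∀ t ∈ l, ¬ Rel t.1 → (dd t.1).1 = 0 ∧ (dd t.1).2 = 0 := by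
    intro t _ hr
    simp only [hdd]
    rw [dif_neg (fun h => hr h.1)]
    exact ⟨rfl, rfl⟩
  have hd3 : ∀ t ∈ l, (dd t.1).2 ≤ (dd t.1).1 := by
    intro t ht
    by_cases hr : Rel t.1
    · obtain ⟨c0, hc0⟩ := hd1 t ht hr
      obtain ⟨h1, h2, h3⟩ := hl t ht
      exact G5.nef_le hnef (hle.trans h3) h1 h2 hc0
    · obtain ⟨e1, e2⟩ := hd2 t ht hr
      rw [e1, e2]
  obtain ⟨hb1, hb2⟩ := G9.bezout hP j hj hc (fun Q => (dd Q).1) (fun Q => (dd Q).2) hd1 hd2
  refine ⟨j, l.length, hj, fun m n p hpm hnm V _ hV => ?_⟩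
  obtain ⟨V', hV'V, hV', hdim⟩ := G8b.chain_bound hP.prime hP.hom hle hc (fun Q => (dd Q).1)
    (fun Q => (dd Q).2) hd1 m n 0 p V hV
  haveI := hP.prime
  have hy0 : im P y ≠ 0 := fun h => hj ((im_eq_zero hP.prime).1 h)
  have hinj : Function.Injective (LinearMap.mulRight ℂ (im P y)⁻¹ : KK P →ₗ[ℂ] KK P) := by
    intro s t hst
    exact mul_right_cancel₀ (inv_ne_zero hy0) hst
  haveI : FiniteDimensional ℂ V' := Submodule.finiteDimensional_of_le hV'V
  refine ⟨V'.map (LinearMap.mulRight ℂ (im P y)⁻¹), inferInstance, ?_, ?_⟩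
  · rintro _ ⟨ψ, hψ, rfl⟩
    have := Ga.div hP.prime hP.hom hyb hj (hV' ψ hψ)
    rw [LinearMap.mulRight_apply, ← div_eq_mul_inv]
    exact this
  · rw [← LinearEquiv.finrank_eq (Submodule.equivMapOfInjective _ hinj V')]
    have hsum : ∀ (l' : List (Ideal (Co a b) × ℕ × ℕ)), (∀ t ∈ l', (dd t.1).2 ≤ (dd t.1).1) →
        (l'.map fun t => max 0 (1 + ((m : ℤ) - (0 : ℕ)) * (dd t.1).1 +
          ((n : ℤ) - p) * (dd t.1).2)).sum = l'.length + m * ((l'.map fun t => (dd t.1).1).sum : ℕ) +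
            ((n : ℤ) - p) * ((l'.map fun t => (dd t.1).2).sum : ℕ) := by
      intro l' hl'
      induction l' with
      | nil => simp
      | cons t l' ih =>
        rw [List.map_cons, List.sum_cons, ih fun t ht => hl' t (List.mem_cons_of_mem _ ht),
          List.map_cons, List.sum_cons, List.map_cons, List.sum_cons, List.length_cons]
        have h1 : ((dd t.1).2 : ℤ) ≤ (dd t.1).1 := by exact_mod_cast hl' t List.mem_cons_self
        have h2 : (0 : ℤ) ≤ (dd t.1).2 := Int.natCast_nonneg _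
        have h3 : (0 : ℤ) ≤ m := Int.natCast_nonneg _
        have h4 : -(m : ℤ) ≤ (n : ℤ) - p := by omega
        have h5 : 0 ≤ 1 + ((m : ℤ) - (0 : ℕ)) * (dd t.1).1 + ((n : ℤ) - p) * (dd t.1).2 := by
          have h6 := mul_le_mul_of_nonneg_right h4 h2
          have h7 := mul_le_mul_of_nonneg_left h1 h3
          push_cast
          nlinarith
        rw [max_eq_right h5]
        push_cast
        ring
    rw [hsum l hd3] at hdim
    generalize (l.map fun t => (dd t.1).1).sum = SA at hb1 hdim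
    generalize (l.map fun t => (dd t.1).2).sum = SB at hb2 hdim
    have hdim' := (Int.cast_le (R := ℝ)).2 hdim
    push_cast at hdim'
    rw [hb1, hb2] at hdim'
    linarith

/-- **`h⁰(d L) ≥ L² d² / 2 - o(d²)` for nef `L = A - B`** -/
theorem growth {P : Ideal (Co a b)} {α β γ : ℝ} (hP : Surf P α β γ) (hnef : Nef P) (ε : ℝ)
    (hε : 0 < ε) : ∀ᶠ d : ℕ in atTop, ∃ V : Submodule ℂ (KK P), FiniteDimensional ℂ V ∧
      (∀ ψ ∈ V, Ga P ⊤ d 0 0 d ψ) ∧ ((α - 2 * β + γ) / 2 - ε) * (d : ℝ) ^ 2 ≤ finrank ℂ V := by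
  obtain ⟨j, C, hj, hstep⟩ := descent_step hP hnef
  haveI := hP.prime
  -- all the steps
  have hall : ∀ (d p : ℕ), p ≤ 2 * d → ∃ V : Submodule ℂ (KK P), FiniteDimensional ℂ V ∧
      (∀ ψ ∈ V, Ga P ⊤ d d 0 p ψ) ∧ (hf P d d : ℝ) ≤ finrank ℂ V + p * C + p * (d * β) +
        (p * d - p * (p - 1) / 2) * γ := by
    intro d p
    induction p with
    | zero =>
      intro _
      haveI := G0a.finite_bh (a := a) (b := b) d d
      refine ⟨(bh a b d d).map (im P).toLinearMap, inferInstance, ?_, ?_⟩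
      · rintro _ ⟨f, hf, rfl⟩
        refine ⟨0, 0, fun g hg => ⟨f * g, ?_, ?_⟩⟩
        · unfold pt
          rw [Submodule.mem_inf]
          refine ⟨?_, trivial⟩
          have := G0a.bh_mul hf hg
          simpa using this
        · exact (map_mul (im P) f g).symm
      · have h1 : hf P d d = finrank ℂ ((bh a b d d).map (im P).toLinearMap) := by
          unfold hf
          have h2 : (im P).toLinearMap = (IsScalarTower.toAlgHom ℂ (Co a b ⧸ P)
              (KK P)).toLinearMap.comp (Ideal.Quotient.mkₐ ℂ P).toLinearMap := rfl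
          rw [h2, Submodule.map_comp]
          exact LinearEquiv.finrank_eq (Submodule.equivMapOfInjective _
            (IsFractionRing.injective (Co a b ⧸ P) (KK P)) _)
        rw [h1]
        simp
    | succ p ih =>
      intro hp
      obtain ⟨V, hfin, hV, hdim⟩ := ih (by omega)
      obtain ⟨V', hfin', hV', hdim'⟩ := hstep d d p (by omega) (by omega) V hV
      refine ⟨V', hfin', hV', ?_⟩
      push_cast
      linarith
  have hg := hP.growth 1 1 le_rfl le_rfl
  have h1 := hg.eventually (lt_mem_nhds (show α + 2 * β + γ - ε <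
    α * (1 : ℕ) ^ 2 + 2 * β * (1 : ℕ) * (1 : ℕ) + γ * (1 : ℕ) ^ 2 by push_cast; linarith))
  obtain ⟨d1, hd1⟩ := exists_nat_ge ((2 * (2 * (C : ℝ) + γ)) / ε)
  filter_upwards [h1, eventually_ge_atTop (d1 + 1)] with d hd hdd
  rw [one_mul] at hd
  obtain ⟨V, hfin, hV, hdim⟩ := hall d (2 * d) le_rfl
  refine ⟨V, hfin, ?_, ?_⟩
  · intro ψ hψ
    obtain ⟨u, v, huv⟩ := hV ψ hψ
    refine ⟨u, v + d, fun g hg => ?_⟩
    have e1 : v + d + d = v + 2 * d := by ring
    rw [e1] at hg
    exact huv g hg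
  · have hd0 : (0 : ℝ) < d := by exact_mod_cast (by omega : 0 < d)
    have hd2 : (2 * (2 * (C : ℝ) + γ)) / ε ≤ d := hd1.trans (by exact_mod_cast (by omega : d1 ≤ d))
    rw [div_le_iff₀ hε] at hd2
    rw [lt_div_iff₀ (by positivity)] at hd
    push_cast at hdim
    nlinarith

end Pool.Agent.TH279.GR.G10
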