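import Pool.Agent.TH55.GR.Hf
import Pool.Agent.TH959.GR.G3
import Pool.Agent.TH952.GR.Basics

/-!
# Degrees of the components of `y_j = 0` (job 4497, helper692)
-/

set_option autoImplicit false

open MvPolynomial Module Filter Topology

namespace Pool.Agent.TH692.GR

open Pool.Agent.TH279.GR

variable {a b : ℕ}

lemma hf_top (u v : ℕ) : hf (⊤ : Ideal (Co a b)) u v = 0 := by
  unfold hf
  haveI : Subsingleton (Co a b ⧸ (⊤ : Ideal (Co a b))) := Ideal.Quotient.subsingleton_iff.2 rfl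
  exact finrank_zero_of_subsingleton

lemma col_prime {P : Ideal (Co a b)} (hP : P.IsPrime) {x : Co a b} (hx : x ∉ P) : col P x = P := by
  ext f
  rw [mem_col]
  exact ⟨fun h => (hP.mem_or_mem h).resolve_left hx, fun h => P.mul_mem_left _ h⟩

lemma list_lin (dA dB : Ideal (Co a b) → ℕ) (l : List (Ideal (Co a b) × ℕ × ℕ))
    (hl : ∀ t ∈ l, ∃ c0 : ℤ, Lin t.1 (dA t.1) (dB t.1) c0) :
    ∃ (n1 : ℕ) (C : ℤ), ∀ u v : ℕ, n1 ≤ u → n1 ≤ v →
      (((l.map fun t => hf t.1 (u - t.2.1) (v - t.2.2)).sum : ℕ) : ℤ) =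
        ((l.map fun t => dA t.1).sum : ℕ) * u + ((l.map fun t => dB t.1).sum : ℕ) * v + C := by
  induction l with
  | nil => exact ⟨0, 0, fun u v _ _ => by simp⟩
  | cons t l ih =>
    obtain ⟨n1, C, h1⟩ := ih fun t ht => hl t (List.mem_cons_of_mem _ ht)
    obtain ⟨c0, n0, h0⟩ := hl t List.mem_cons_self
    refine ⟨n1 + n0 + t.2.1 + t.2.2, C + c0 - dA t.1 * t.2.1 - dB t.1 * t.2.2,
      fun u v hu hv => ?_⟩
    rw [List.map_cons, List.sum_cons, List.map_cons, List.sum_cons, List.map_cons, List.sum_cons]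
    have h2 := h1 u v (by omega) (by omega)
    have h3 := h0 (u - t.2.1) (v - t.2.2) (by omega) (by omega)
    rw [Nat.cast_sub (by omega), Nat.cast_sub (by omega)] at h3
    rw [Nat.cast_add, h2, h3]
    push_cast
    ring

lemma step_sum {P : Ideal (Co a b)} {D E C : ℤ} {n1 : ℕ}
    (h : ∀ u v : ℕ, n1 ≤ u → n1 ≤ v → (hf P u (v + 1) : ℤ) = hf P u v + (D * u + E * (v + 1) + C))
    (u v s : ℕ) (hu : n1 ≤ u) (hv : n1 ≤ v) :
    2 * (hf P u (v + s) : ℤ) = 2 * hf P u v + 2 * s * (D * u + E * v + C) + E * (s * (s + 1)) := by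
  induction s with
  | zero => simp
  | succ s ih =>
    have h1 := h u (v + s) hu (by omega)
    rw [← Nat.add_assoc, h1, mul_add, ih]
    push_cast
    ring

lemma lim_eq {P : Ideal (Co a b)} {α β γ : ℝ} (hP : Surf P α β γ) {D E C : ℤ} {n1 : ℕ}
    (h : ∀ u v : ℕ, n1 ≤ u → n1 ≤ v → (hf P u (v + 1) : ℤ) = hf P u v + (D * u + E * (v + 1) + C))
    (p : ℕ) (hp : 1 ≤ p) : 2 * β * p + 3 * γ = 2 * p * D + 3 * E := by
  have h1 := (hP.growth p 2 hp (by norm_num)).sub (hP.growth p 1 hp le_rfl)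
  have h2 : Tendsto (fun t : ℕ => (2 * p * D + 3 * E : ℝ) + (2 * C + E) * (1 / (t : ℝ))) atTop
      (𝓝 ((2 * p * D + 3 * E : ℝ) + (2 * C + E) * 0)) :=
    tendsto_const_nhds.add (tendsto_one_div_atTop_nhds_zero_nat.const_mul _)
  have h3 : (fun t : ℕ => (2 * p * D + 3 * E : ℝ) + (2 * C + E) * (1 / (t : ℝ))) =ᶠ[atTop]
      fun t : ℕ => 2 * (hf P (p * t) (2 * t) : ℝ) / (t : ℝ) ^ 2 -
        2 * (hf P (p * t) (1 * t) : ℝ) / (t : ℝ) ^ 2 := by
    filter_upwards [eventually_ge_atTop (n1 + 1)] with t ht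
    have ht0 : (t : ℝ) ≠ 0 := by
      have : 0 < t := by omega
      exact_mod_cast this.ne'
    have hu : n1 ≤ p * t := by nlinarith
    have h4 := step_sum h (p * t) t t hu (by omega)
    have h5 : 2 * (hf P (p * t) (2 * t) : ℝ) = 2 * hf P (p * t) t +
        2 * t * (D * (p * t) + E * t + C) + E * (t * (t + 1)) := by
      have e : 2 * t = t + t := by ring
      rw [e]
      exact_mod_cast h4
    rw [one_mul, h5]
    field_simp
    ring
  have h6 := tendsto_nhds_unique (h2.congr' h3) h1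
  push_cast at h6
  linarith

end Pool.Agent.TH692.GR

namespace Pool.Agent.TH279.GR.G9

open Pool.Agent.TH279.GR Pool.Agent.TH692.GR

variable {a b : ℕ}

theorem bezout {P : Ideal (Co a b)} {α β γ : ℝ} (hP : Surf P α β γ) (j : Fin (b + 1))
    (hj : (X (Sum.inr j) : Co a b) ∉ P) {l : List (Ideal (Co a b) × ℕ × ℕ)}
    (hc : Chain (P ⊔ Ideal.span {X (Sum.inr j)}) ⊤ l) (dA dB : Ideal (Co a b) → ℕ)
    (hl : ∀ t ∈ l, Rel t.1 → ∃ c0 : ℤ, Lin t.1 (dA t.1) (dB t.1) c0)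
    (h0 : ∀ t ∈ l, ¬ Rel t.1 → dA t.1 = 0 ∧ dB t.1 = 0) :
    (((l.map fun t => dA t.1).sum : ℕ) : ℝ) = β ∧ (((l.map fun t => dB t.1).sum : ℕ) : ℝ) = γ := by
  have hl' : ∀ t ∈ l, ∃ c0 : ℤ, Lin t.1 (dA t.1) (dB t.1) c0 := by
    intro t ht
    by_cases hr : Rel t.1
    · exact hl t ht hr
    · obtain ⟨n0, hn0⟩ := G3.hf_irrel hr
      obtain ⟨e1, e2⟩ := h0 t ht hr
      refine ⟨0, n0, fun u v hu hv => ?_⟩
      rw [hn0 u v hu hv, e1, e2]
      simp
  obtain ⟨n1, C, h1⟩ := list_lin dA dB l hl'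
  have hstep : Step P (P ⊔ Ideal.span {X (Sum.inr j)}) (X (Sum.inr j)) 0 1 :=
    ⟨hP.hom, G0a.X_inr_mem j, rfl, by rw [col_prime hP.prime hj]; exact hP.prime⟩
  obtain ⟨n0, hn0, h2⟩ := G2.chain_hf (Chain.cons hstep hc)
  have h3 : ∀ u v : ℕ, n0 + n1 ≤ u → n0 + n1 ≤ v → (hf P u (v + 1) : ℤ) = hf P u v +
      (((l.map fun t => dA t.1).sum : ℕ) * u + ((l.map fun t => dB t.1).sum : ℕ) * (v + 1) + C) := by
    intro u v hu hv
    have h4 := h2 u (v + 1) (by omega) (by omega)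
    rw [hf_top, List.map_cons, List.sum_cons, zero_add, col_prime hP.prime hj] at h4
    have h5 := h1 u (v + 1) (by omega) (by omega)
    simp only [Nat.sub_zero, Nat.add_sub_cancel] at h4
    rw [h4, Nat.cast_add, h5]
    push_cast
    ring
  generalize (l.map fun t => dA t.1).sum = DA at h3 ⊢
  generalize (l.map fun t => dB t.1).sum = DB at h3 ⊢
  have e1 := lim_eq hP h3 1 le_rfl
  have e2 := lim_eq hP h3 2 (by norm_num)
  push_cast at e1 e2 ⊢
  constructor <;> linarith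

end Pool.Agent.TH279.GR.G9
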